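import Pool.Agent.Lib.MP_1e901d_co.Five.Mask

/-! MP_1e901d_co : branch trees checked in pieces; chains of forced lists. -/

set_option autoImplicit false

namespace Pool.Agent.Lib.MP1e901d.Tree

/-- ones at the multiples of `w`, by doubling -/
def dbl (w j : ℕ) : ℕ :=
  Nat.rec (motive := fun _ => ℕ) 1
    (fun j ih => Nat.lor ih (Nat.shiftLeft ih (Nat.mul w (Nat.pow 2 j)))) j

theorem dbl_dvd {w : ℕ} : ∀ (j i : ℕ), (dbl w j).testBit i = true → w ∣ i
  | 0, i, h => by
    have h1 : dbl w 0 = 1 := rfl
    rw [h1] at h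
    have hi : i = 0 := by
      by_contra hcon
      have : Nat.testBit 1 i = false := by
        apply Nat.testBit_eq_false_of_lt
        exact Nat.one_lt_two_pow hcon
      rw [this] at h
      exact Bool.false_ne_true h
    rw [hi]
    exact dvd_zero w
  | j + 1, i, h => by
    have h1 : dbl w (j + 1) = dbl w j ||| (dbl w j) <<< (w * 2 ^ j) := rfl
    rw [h1, Nat.testBit_or, Bool.or_eq_true] at h
    rcases h with h | h
    · exact dbl_dvd j i h
    · rw [Nat.testBit_shiftLeft, Bool.and_eq_true, decide_eq_true_eq] at h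
      have h2 := dbl_dvd j _ h.2
      have h3 : i = (i - w * 2 ^ j) + w * 2 ^ j := by omega
      rw [h3]
      exact dvd_add h2 (dvd_mul_right w _)

/-- `Good` for coded lists -/
def GoodC (n k : ℕ) (pos neg : List ℕ) : Prop := Good n k (pos.map (dec k)) (neg.map (dec k))

theorem GoodC.branch {n k : ℕ} {pos neg : List ℕ} (c : ℕ) (hl : GoodC n k (c :: pos) neg)
    (hr : GoodC n k pos (c :: neg)) : GoodC n k pos neg :=
  Good.branch (dec k c) hl hr

theorem pos_mks {n k : ℕ} {a : ℕ → ℝ} (h1 : ∀ i j, i ≤ j → j < n → a j ≤ a i) :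
    ∀ pos : List ℕ, okP n k pos = true → (∀ p ∈ pos.map (dec k), 0 < S a p) →
      Pos n k a (mks n k pos)
  | [], _, _ => by
    intro j hj
    have h0 : mks n k [] = 0 := rfl
    rw [h0, Nat.zero_testBit] at hj
    exact absurd hj Bool.false_ne_true
  | c :: pos, hok, hp => by
    have h0 : mks n k (c :: pos) = mks n k pos ||| mk n k (dec k c) := rfl
    have h4 : okP n k (c :: pos) = (ltsF n (dec k c) && okP n k pos) := rfl
    rw [h4, Bool.and_eq_true] at hok
    rw [h0]
    refine (pos_mks h1 pos hok.2 (fun p hpp => hp p (by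
      simp only [List.map_cons, List.mem_cons]; exact Or.inr hpp))).lor ?_
    exact Pos.mk h1 (dec_length k c) (ltsF_true hok.1) (hp _ (by simp))

/-- the test of a piece -/
noncomputable def pieceD (n k goal w j : ℕ) (pos neg : List ℕ) (tr : Tc) : Bool :=
  okP n k pos && checkM n k goal w (dbl w j) tr (mks n k pos) (neg.map (dec k))

theorem GoodC.of_piece {n k goal w j : ℕ} {pos neg : List ℕ} {tr : Tc}
    (hg : (n - 1).choose (k - 1) + 1 = goal) (h : pieceD n k goal w j pos neg tr = true) :
    GoodC n k pos neg := by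
  intro a h1 h2 h3 hp hn
  rw [pieceD, Bool.and_eq_true] at h
  rw [hg]
  refine checkM_sound (dbl_dvd j) h1 h2 h3 tr _ _ (pos_mks h1 pos h.1 hp) ?_ h.2
  intro s hs
  refine ⟨?_, hn s hs⟩
  obtain ⟨c, _, rfl⟩ := List.mem_map.1 hs
  exact dec_length k c

/-- every list of the chain is forced -/
def chainOK (n k goal w M m : ℕ) (cs : List ℕ) : Bool :=
  List.rec (motive := fun _ => Bool) true (fun c _ ih => ltsF n (dec k c) &&
    Nat.ble goal (pc w M w (Nat.lor m (mk n k (dec k c)))) && ih) cs

/-- put a chain on top -/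
def push : List ℕ → List ℕ → List ℕ
  | [], neg => neg
  | c :: cs, neg => push cs (c :: neg)

/-- the test of a chain -/
def chainD (n k goal w j : ℕ) (pos cs : List ℕ) : Bool :=
  okP n k pos && chainOK n k goal w (dbl w j) (mks n k pos) cs

theorem GoodC.chain {n k goal w j : ℕ} {pos : List ℕ}
    (hg : (n - 1).choose (k - 1) + 1 = goal) : ∀ (cs : List ℕ) {neg : List ℕ},
    chainD n k goal w j pos cs = true → GoodC n k pos (push cs neg) → GoodC n k pos neg
  | [], neg, _, hr => hr
  | c :: cs, neg, h, hr => by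
    have h4 : chainD n k goal w j pos (c :: cs) = (okP n k pos && (ltsF n (dec k c) &&
      Nat.ble goal (pc w (dbl w j) w (mks n k pos ||| mk n k (dec k c))) &&
      chainOK n k goal w (dbl w j) (mks n k pos) cs)) := rfl
    rw [h4, Bool.and_eq_true, Bool.and_eq_true, Bool.and_eq_true] at h
    obtain ⟨h5, ⟨h6, h7⟩, h8⟩ := h
    have h9 : chainD n k goal w j pos cs = true := by
      rw [chainD, Bool.and_eq_true]
      exact ⟨h5, h8⟩
    refine GoodC.branch c ?_ (GoodC.chain hg cs h9 hr)
    intro a h1 h2 h3 hp hn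
    rw [hg]
    have hm : Pos n k a (mks n k pos ||| mk n k (dec k c)) := by
      refine (pos_mks h1 pos h5 (fun p hpp => hp p (by
        simp only [List.map_cons, List.mem_cons]; exact Or.inr hpp))).lor ?_
      exact Pos.mk h1 (dec_length k c) (ltsF_true h6) (hp _ (by simp))
    have h10 := Nat.le_of_ble_eq_true h7
    have hmlt : (mks n k pos ||| mk n k (dec k c)) < 2 ^ (mks n k pos ||| mk n k (dec k c)) :=
      Nat.lt_two_pow_self
    have h11 := pc_le (dbl_dvd (w := w) j) hmlt w le_rfl
    have h12 := hm.count (N := (mks n k pos ||| mk n k (dec k c)))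
    have h13 := Finset.card_filter_le (bits (mks n k pos ||| mk n k (dec k c))
      (mks n k pos ||| mk n k (dec k c))) (fun j => j % w < w)
    omega

end Pool.Agent.Lib.MP1e901d.Tree
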