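import Pool.Agent.Lib.MP_1e901d_co.Five.Star
import Pool.Agent.Lib.MP_1e901d_co.Six.G20
import Pool.Agent.Lib.MP_1e901d_co.Six.G21
import Pool.Agent.Lib.MP_1e901d_co.Six.G22
import Pool.Agent.Lib.MP_1e901d_co.Six.G23
import Pool.Agent.Lib.MP_1e901d_co.Six.G25

/-! MP_1e901d_co : the base cases `k = 6`, `n = 20, 21, 22, 23, 25`. -/

set_option autoImplicit false

namespace Pool.Agent.Lib.MP1e901d

open Finset

theorem starMin6_20 : StarMin (fun s => s < 0) 6 20 :=
  starMin_of_few (by norm_num) (fun _ hA h =>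
    of_good (by norm_num) (by norm_num) Tree.good_6_20 hA h)

theorem starMin6_21 : StarMin (fun s => s < 0) 6 21 :=
  starMin_of_few (by norm_num) (fun _ hA h =>
    of_good (by norm_num) (by norm_num) Tree.good_6_21 hA h)

theorem starMin6_22 : StarMin (fun s => s < 0) 6 22 :=
  starMin_of_few (by norm_num) (fun _ hA h =>
    of_good (by norm_num) (by norm_num) Tree.good_6_22 hA h)

theorem starMin6_23 : StarMin (fun s => s < 0) 6 23 :=
  starMin_of_few (by norm_num) (fun _ hA h =>
    of_good (by norm_num) (by norm_num) Tree.good_6_23 hA h)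

theorem starMin6_25 : StarMin (fun s => s < 0) 6 25 :=
  starMin_of_few (by norm_num) (fun _ hA h =>
    of_good (by norm_num) (by norm_num) Tree.good_6_25 hA h)

end Pool.Agent.Lib.MP1e901d
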